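import Mathlib

namespace Pool.Agent.Results.MP_5391ad_co.SecondOrder

open Finset

/-- `A` has an `s × (n-s)` zero submatrix for some `1 ≤ s ≤ n-1` -/
def PartlyDec {α : Type} [Fintype α] (A : α → α → Bool) : Prop :=
  ∃ S T : Finset α, 1 ≤ S.card ∧ S.card ≤ Fintype.card α - 1 ∧
    S.card + T.card = Fintype.card α ∧ ∀ i ∈ S, ∀ j ∈ T, A i j = false

/-- fully indecomposable; for `n = 1` only the matrix `(1)` is -/
def FullyIndec {α : Type} [Fintype α] (A : α → α → Bool) : Prop :=
  ¬ PartlyDec A ∧ (Fintype.card α = 1 → ∀ i j, A i j = true)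

/-- change the entry `(i,j)` to `0` -/
def del {α : Type} [DecidableEq α] (A : α → α → Bool) (i j : α) : α → α → Bool :=
  fun a b => if a = i ∧ b = j then false else A a b

/-- nearly decomposable -/
def NearlyDec {α : Type} [Fintype α] [DecidableEq α] (A : α → α → Bool) : Prop :=
  FullyIndec A ∧ ∀ i j, A i j = true → ¬ FullyIndec (del A i j)

/-- `N_n`, the number of nearly decomposable `n × n` matrices -/
noncomputable def N (n : ℕ) : ℕ := Nat.card {A : Fin n → Fin n → Bool // NearlyDec A}

section upper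

variable {α : Type} [Fintype α] [DecidableEq α]

lemma fi_mono {A B : α → α → Bool} (h : ∀ i j, A i j = true → B i j = true) (hA : FullyIndec A) :
    FullyIndec B := by
  refine ⟨?_, fun h1 i j => h i j (hA.2 h1 i j)⟩
  rintro ⟨S, T, h1, h2, h3, h4⟩
  apply hA.1
  refine ⟨S, T, h1, h2, h3, fun i hi j hj => ?_⟩
  by_contra hne
  rw [Bool.not_eq_false] at hne
  have := h i j hne
  rw [h4 i hi j hj] at this
  exact Bool.false_ne_true this

lemma exists_matching (hn : 2 ≤ Fintype.card α) {A : α → α → Bool} (hA : FullyIndec A) :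
    ∃ σ : α → α, Function.Bijective σ ∧ ∀ i, A i (σ i) = true := by
  have hall : ∀ S : Finset α, S.card ≤ (S.biUnion fun i => univ.filter fun j => A i j = true).card := by
    intro S
    by_contra hcon
    push Not at hcon
    set NS := S.biUnion fun i => univ.filter fun j => A i j = true with hNS
    have hzero : ∀ i ∈ S, ∀ j, j ∉ NS → A i j = false := by
      intro i hi j hj
      by_contra hne
      rw [Bool.not_eq_false] at hne
      exact hj (mem_biUnion.2 ⟨i, hi, mem_filter.2 ⟨mem_univ _, hne⟩⟩)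
    have hS0 : 0 < S.card := by omega
    by_cases hSu : S = univ
    · -- a zero column
      have hlt : NS.card < Fintype.card α := by
        have := card_le_univ S; omega
      obtain ⟨j, hj⟩ : ∃ j, j ∉ NS := by
        by_contra hall'
        push Not at hall'
        have : NS = univ := by ext; simp [hall']
        rw [this, card_univ] at hlt; omega
      obtain ⟨i0, hi0⟩ := card_pos.1 hS0
      apply hA.1
      refine ⟨univ.erase i0, {j}, ?_, ?_, ?_, ?_⟩
      · rw [card_erase_of_mem (mem_univ _), card_univ]; omega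
      · rw [card_erase_of_mem (mem_univ _), card_univ]
      · rw [card_erase_of_mem (mem_univ _), card_univ, card_singleton]; omega
      · intro i _ j' hj'
        rw [mem_singleton] at hj'
        rw [hj']
        exact hzero i (by rw [hSu]; exact mem_univ _) j hj
    · have hlt : S.card < Fintype.card α := by
        rw [← card_univ]; exact card_lt_card (ssubset_univ_iff.2 hSu)
      have hcompl : Fintype.card α - S.card ≤ (univ \ NS).card := by
        rw [card_sdiff_of_subset (subset_univ _), card_univ]; omega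
      obtain ⟨T, hT, hTc⟩ := exists_subset_card_eq hcompl
      apply hA.1
      refine ⟨S, T, hS0, by omega, by omega, fun i hi j hj => ?_⟩
      exact hzero i hi j (mem_sdiff.1 (hT hj)).2
  obtain ⟨f, hf, hf2⟩ := (Finset.all_card_le_biUnion_card_iff_exists_injective
    (fun i => univ.filter fun j => A i j = true)).1 hall
  exact ⟨f, Finite.injective_iff_bijective.1 hf, fun i => (mem_filter.1 (hf2 i)).2⟩

/-- the zero block determined by a set of rows not left by any arc -/
lemma exists_leaving {A : α → α → Bool} (hA : FullyIndec A)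
    {σ : α → α} (hσ : Function.Bijective σ) (S : Finset α) (h0 : S.Nonempty) (h1 : S ≠ univ) :
    ∃ i ∈ S, ∃ i' ∉ S, A i (σ i') = true := by
  by_contra hcon
  push Not at hcon
  apply hA.1
  have hlt : S.card < Fintype.card α := by
    rw [← card_univ]; exact card_lt_card (ssubset_univ_iff.2 h1)
  refine ⟨S, (univ \ S).image σ, card_pos.2 h0, by omega, ?_, ?_⟩
  · rw [card_image_of_injective _ hσ.1, card_sdiff_of_subset (subset_univ _), card_univ]; omega
  · intro i hi j hj
    obtain ⟨i', hi', rfl⟩ := mem_image.1 hj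
    have := hcon i hi i' (mem_sdiff.1 hi').2
    simpa using this

lemma branching (R : α → α → Prop) (r : α)
    (hR : ∀ S : Finset α, S.Nonempty → S ≠ univ → ∃ i ∈ S, ∃ i' ∉ S, R i i') :
    ∃ p : α → α, (∀ v, v ≠ r → R (p v) v) ∧
      ∀ S : Finset α, r ∈ S → S ≠ univ → ∃ v, v ∉ S ∧ v ≠ r ∧ p v ∈ S := by
  have key : ∀ m : ℕ, 1 ≤ m → m ≤ Fintype.card α → ∃ (U : Finset α) (p : α → α), U.card = m ∧ r ∈ U ∧
      (∀ v ∈ U, v ≠ r → R (p v) v ∧ p v ∈ U) ∧
      (∀ S : Finset α, r ∈ S → ¬ U ⊆ S → ∃ v ∈ U, v ∉ S ∧ v ≠ r ∧ p v ∈ S) := by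
    intro m hm
    induction m, hm using Nat.le_induction with
    | base =>
      intro _
      refine ⟨{r}, id, card_singleton _, mem_singleton_self _, ?_, ?_⟩
      · intro v hv hvr; exact absurd (mem_singleton.1 hv) hvr
      · intro S hr hS
        exact absurd (singleton_subset_iff.2 hr) hS
    | succ m hm ih =>
      intro hle
      obtain ⟨U, p, hU, hrU, h1, h2⟩ := ih (by omega)
      have hne : U ≠ univ := by
        rintro rfl; rw [card_univ] at hU; omega
      obtain ⟨u, hu, v, hv, huv⟩ := hR U ⟨r, hrU⟩ hne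
      refine ⟨insert v U, Function.update p v u, ?_, mem_insert_of_mem hrU, ?_, ?_⟩
      · rw [card_insert_of_notMem hv, hU]
      · intro w hw hwr
        by_cases hwv : w = v
        · subst hwv
          rw [Function.update_self]
          exact ⟨huv, mem_insert_of_mem hu⟩
        · rw [Function.update_of_ne hwv]
          have hwU := (mem_insert.1 hw).resolve_left hwv
          exact ⟨(h1 w hwU hwr).1, mem_insert_of_mem (h1 w hwU hwr).2⟩
      · intro S hr hS
        by_cases hUS : U ⊆ S
        · have hvS : v ∉ S := by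
            intro hvS
            exact hS (insert_subset hvS hUS)
          refine ⟨v, mem_insert_self _ _, hvS, ?_, ?_⟩
          · rintro rfl; exact hv hrU
          · rw [Function.update_self]; exact hUS hu
        · obtain ⟨w, hw, hwS, hwr, hpw⟩ := h2 S hr hUS
          refine ⟨w, mem_insert_of_mem hw, hwS, hwr, ?_⟩
          rw [Function.update_of_ne (by rintro rfl; exact hv hw)]
          exact hpw
  obtain ⟨U, p, hU, hrU, h1, h2⟩ := key (Fintype.card α) (Fintype.card_pos_iff.2 ⟨r⟩) le_rfl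
  have hUu : U = univ := by rw [← Finset.card_eq_iff_eq_univ, hU]
  subst hUu
  refine ⟨p, fun v hv => (h1 v (mem_univ _) hv).1, fun S hr hS => ?_⟩
  obtain ⟨v, _, h3, h4, h5⟩ := h2 S hr (fun h => hS (univ_subset_iff.1 h))
  exact ⟨v, h3, h4, h5⟩

lemma ones_le (hn : 2 ≤ Fintype.card α) {A : α → α → Bool} (hA : NearlyDec A) :
    (univ.filter fun p : α × α => A p.1 p.2 = true).card ≤ 3 * Fintype.card α := by
  obtain ⟨hFI, hmin⟩ := hA
  obtain ⟨σ, hσ, hσA⟩ := exists_matching hn hFI
  obtain ⟨r⟩ : Nonempty α := Fintype.card_pos_iff.1 (by omega)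
  obtain ⟨p, hp1, hp2⟩ := branching (fun i i' => A i (σ i') = true) r
    (fun S h0 h1 => exists_leaving hFI hσ S h0 h1)
  obtain ⟨q, hq1, hq2⟩ := branching (fun i i' => A i' (σ i) = true) r (by
    intro S h0 h1
    obtain ⟨i, hi, i', hi', h⟩ := exists_leaving hFI hσ (univ \ S) (by
      rw [nonempty_iff_ne_empty, Ne, sdiff_eq_empty_iff_subset]
      exact fun h => h1 (univ_subset_iff.1 h)) (by
      intro h
      obtain ⟨x, hx⟩ := h0
      have : x ∈ univ \ S := by rw [h]; exact mem_univ _
      exact (mem_sdiff.1 this).2 hx)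
    refine ⟨i', ?_, i, (mem_sdiff.1 hi).2, h⟩
    by_contra h'
    exact hi' (mem_sdiff.2 ⟨mem_univ _, h'⟩))
  set E : Finset (α × α) := (univ.image fun i => (i, σ i)) ∪
    (((univ.erase r).image fun v => (p v, σ v)) ∪ ((univ.erase r).image fun v => (v, σ (q v)))) with hE
  have hEcard : E.card ≤ 3 * Fintype.card α := by
    have e1 : (univ.image fun i => (i, σ i)).card ≤ Fintype.card α := by
      refine card_image_le.trans ?_; rw [card_univ]
    have e2 : ((univ.erase r).image fun v => (p v, σ v)).card ≤ Fintype.card α := by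
      refine card_image_le.trans ((card_le_univ _)) 
    have e3 : ((univ.erase r).image fun v => (v, σ (q v))).card ≤ Fintype.card α := by
      refine card_image_le.trans ((card_le_univ _)) 
    have e4 := card_union_le (univ.image fun i => (i, σ i))
      (((univ.erase r).image fun v => (p v, σ v)) ∪ ((univ.erase r).image fun v => (v, σ (q v))))
    have e5 := card_union_le ((univ.erase r).image fun v => (p v, σ v))
      ((univ.erase r).image fun v => (v, σ (q v)))
    rw [hE]
    omega
  -- the submatrix on `E` is fully indecomposable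
  have hB : FullyIndec (fun i j => decide ((i, j) ∈ E)) := by
    refine ⟨?_, fun h => by omega⟩
    rintro ⟨S, T, h1, h2, h3, h4⟩
    have hmemT : ∀ i j, (i, j) ∈ E → i ∈ S → j ∉ T := by
      intro i j hij hi hj
      have := h4 i hi j hj
      simp [hij] at this
    have hST : Disjoint (S.image σ) T := by
      rw [disjoint_left]
      intro j hj
      obtain ⟨i, hi, rfl⟩ := mem_image.1 hj
      exact hmemT i (σ i) (mem_union_left _ (mem_image.2 ⟨i, mem_univ _, rfl⟩)) hi
    have hcov : S.image σ ∪ T = univ := by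
      rw [← Finset.card_eq_iff_eq_univ, card_union_of_disjoint hST, card_image_of_injective _ hσ.1, h3]
    have hT : ∀ v, v ∉ S → σ v ∈ T := by
      intro v hv
      have : σ v ∈ S.image σ ∪ T := by rw [hcov]; exact mem_univ _
      rcases mem_union.1 this with h | h
      · obtain ⟨i, hi, hiv⟩ := mem_image.1 h
        rw [hσ.1 hiv] at hi
        exact absurd hi hv
      · exact h
    have hSne : S ≠ univ := by
      rintro rfl; rw [card_univ] at h2; omega
    by_cases hr : r ∈ S
    · obtain ⟨v, hv, hvr, hpv⟩ := hp2 S hr hSne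
      exact hmemT (p v) (σ v) (mem_union_right _ (mem_union_left _
        (mem_image.2 ⟨v, mem_erase.2 ⟨hvr, mem_univ _⟩, rfl⟩))) hpv (hT v hv)
    · obtain ⟨v, hv, hvr, hqv⟩ := hq2 (univ \ S) (mem_sdiff.2 ⟨mem_univ _, hr⟩) (by
        intro h
        obtain ⟨x, hx⟩ := card_pos.1 h1
        have : x ∈ univ \ S := by rw [h]; exact mem_univ _
        exact (mem_sdiff.1 this).2 hx)
      have hvS : v ∈ S := by
        by_contra h'
        exact hv (mem_sdiff.2 ⟨mem_univ _, h'⟩)
      exact hmemT v (σ (q v)) (mem_union_right _ (mem_union_right _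
        (mem_image.2 ⟨v, mem_erase.2 ⟨hvr, mem_univ _⟩, rfl⟩))) hvS (hT _ (mem_sdiff.1 hqv).2)
  have hEA : ∀ i j, (i, j) ∈ E → A i j = true := by
    intro i j hij
    rcases mem_union.1 hij with h | h
    · obtain ⟨x, _, hx⟩ := mem_image.1 h
      simp only [Prod.mk.injEq] at hx
      rw [← hx.1, ← hx.2]; exact hσA x
    · rcases mem_union.1 h with h | h
      · obtain ⟨x, hx', hx⟩ := mem_image.1 h
        simp only [Prod.mk.injEq] at hx
        rw [← hx.1, ← hx.2]; exact hp1 x (mem_erase.1 hx').1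
      · obtain ⟨x, hx', hx⟩ := mem_image.1 h
        simp only [Prod.mk.injEq] at hx
        rw [← hx.1, ← hx.2]; exact hq1 x (mem_erase.1 hx').1
  refine (card_le_card ?_).trans hEcard
  intro ⟨i, j⟩ hij
  simp only [mem_filter, mem_univ, true_and] at hij
  by_contra hnot
  apply hmin i j hij
  refine fi_mono ?_ hB
  intro a b hab
  simp only [decide_eq_true_eq] at hab
  unfold del
  rw [if_neg]
  · exact hEA a b hab
  · rintro ⟨rfl, rfl⟩; exact hnot hab

end upper

section count

/-- number of members: `N_n x^{3n} ≤ (1+x)^{n²}` -/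
lemma count_upper (n : ℕ) (hn : 2 ≤ n) (x : ℝ) (hx0 : 0 < x) (hx1 : x ≤ 1) :
    (N n : ℝ) * x ^ (3 * n) ≤ (x + 1) ^ (n * n) := by
  classical
  set 𝒯 : Finset (Finset (Fin n × Fin n)) :=
    (univ.filter fun A : Fin n → Fin n → Bool => NearlyDec A).image
      (fun A => univ.filter fun p : Fin n × Fin n => A p.1 p.2 = true) with h𝒯
  have hinj : Function.Injective (fun A : Fin n → Fin n → Bool =>
      univ.filter fun p : Fin n × Fin n => A p.1 p.2 = true) := by
    intro A B h
    funext i j
    have h1 : (i, j) ∈ (univ.filter fun p : Fin n × Fin n => A p.1 p.2 = true) ↔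
        (i, j) ∈ (univ.filter fun p : Fin n × Fin n => B p.1 p.2 = true) := by
      simp only at h; rw [h]
    simp only [mem_filter, mem_univ, true_and] at h1
    cases hA : A i j <;> cases hB : B i j <;> simp_all
  have hcard : (N n : ℝ) = (𝒯.card : ℝ) := by
    rw [h𝒯, card_image_of_injective _ hinj, N, Nat.card_eq_fintype_card, Fintype.card_subtype]
  have h1 : ∀ t ∈ 𝒯, x ^ (3*n) ≤ x ^ t.card := by
    intro t ht
    obtain ⟨A, hA, rfl⟩ := mem_image.1 ht
    have hA' := (mem_filter.1 hA).2
    have := ones_le (by rw [Fintype.card_fin]; exact hn) hA'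
    rw [Fintype.card_fin] at this
    exact pow_le_pow_of_le_one hx0.le hx1 this
  calc (N n : ℝ) * x ^ (3*n) = ∑ _t ∈ 𝒯, x ^ (3*n) := by
        rw [sum_const, nsmul_eq_mul, hcard]
    _ ≤ ∑ t ∈ 𝒯, x ^ t.card := sum_le_sum h1
    _ ≤ ∑ t ∈ (univ : Finset (Fin n × Fin n)).powerset, x ^ t.card := by
        apply sum_le_sum_of_subset_of_nonneg
        · intro t _; exact mem_powerset.2 (subset_univ _)
        · intro t _ _; positivity
    _ = (x + 1) ^ (n * n) := by
        have := Finset.sum_pow_mul_eq_add_pow x 1 (univ : Finset (Fin n × Fin n))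
        simp only [one_pow, mul_one] at this
        rw [this, card_univ, Fintype.card_prod, Fintype.card_fin]

lemma log_upper (n : ℕ) (hn : 3 ≤ n) (hN : 0 < N n) :
    Real.log (N n) ≤ 3 * (n * Real.log n) := by
  have hn' : (3:ℝ) ≤ n := by exact_mod_cast hn
  have hn0 : (0:ℝ) < n := by linarith
  have h1 := count_upper n (by omega) (3 / n) (by positivity) (by rw [div_le_one hn0]; exact hn')
  have h2 : ((3:ℝ)/n + 1) ^ (n * n) ≤ Real.exp (3 * n) := by
    have h3 : (3:ℝ)/n + 1 ≤ Real.exp (3 / n) := Real.add_one_le_exp _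
    calc ((3:ℝ)/n + 1) ^ (n * n) ≤ (Real.exp (3 / n)) ^ (n*n) := by gcongr
      _ = Real.exp (3 * n) := by
        rw [← Real.exp_nat_mul]; congr 1; push_cast; field_simp
  have h3 := h1.trans h2
  have hNr : (0:ℝ) < N n := by exact_mod_cast hN
  have h4 : Real.log ((N n : ℝ) * (3/n) ^ (3*n)) ≤ 3 * n := by
    rw [← Real.log_exp (3 * (n:ℝ))]
    exact Real.log_le_log (by positivity) h3
  rw [Real.log_mul hNr.ne' (by positivity), Real.log_pow, Real.log_div (by norm_num) hn0.ne'] at h4
  push_cast at h4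
  have h5 : 1 ≤ Real.log 3 := by
    rw [← Real.log_exp 1]
    apply Real.log_le_log (Real.exp_pos _)
    have := Real.exp_one_lt_d9
    linarith
  nlinarith

end count

section lower

variable {α β : Type} [Fintype α] [DecidableEq α] [Fintype β] [DecidableEq β]

lemma pd_reindex (e : α ≃ β) {A : α → α → Bool} (h : PartlyDec A) :
    PartlyDec (fun i j : β => A (e.symm i) (e.symm j)) := by
  obtain ⟨S, T, h1, h2, h3, h4⟩ := h
  refine ⟨S.map e.toEmbedding, T.map e.toEmbedding, ?_, ?_, ?_, ?_⟩
  · rwa [card_map]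
  · rw [card_map, ← Fintype.card_congr e]; exact h2
  · rw [card_map, card_map, ← Fintype.card_congr e]; exact h3
  · intro i hi j hj
    obtain ⟨i', hi', rfl⟩ := mem_map.1 hi
    obtain ⟨j', hj', rfl⟩ := mem_map.1 hj
    simpa using h4 i' hi' j' hj'

lemma fi_reindex (e : α ≃ β) {A : α → α → Bool} :
    FullyIndec (fun i j : β => A (e.symm i) (e.symm j)) ↔ FullyIndec A := by
  constructor
  · rintro ⟨h1, h2⟩
    refine ⟨fun h => h1 (pd_reindex e h), fun h i j => ?_⟩
    have := h2 (by rw [← Fintype.card_congr e]; exact h) (e i) (e j)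
    simpa using this
  · rintro ⟨h1, h2⟩
    refine ⟨fun h => h1 ?_, fun h i j => h2 (by rw [Fintype.card_congr e]; exact h) _ _⟩
    have := pd_reindex e.symm h
    simpa using this

lemma nd_reindex (e : α ≃ β) {A : α → α → Bool} :
    NearlyDec (fun i j : β => A (e.symm i) (e.symm j)) ↔ NearlyDec A := by
  unfold NearlyDec
  rw [fi_reindex e]
  have hdel : ∀ i j : α, (fun a b : β => del A i j (e.symm a) (e.symm b)) =
      del (fun i j : β => A (e.symm i) (e.symm j)) (e i) (e j) := by
    intro i j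
    funext a b
    unfold del
    simp only [Equiv.symm_apply_eq]
  constructor
  · rintro ⟨h1, h2⟩
    refine ⟨h1, fun i j hij h => h2 (e i) (e j) (by simpa using hij) ?_⟩
    rw [← hdel, fi_reindex e]; exact h
  · rintro ⟨h1, h2⟩
    refine ⟨h1, fun i j hij h => h2 (e.symm i) (e.symm j) hij ?_⟩
    rw [← fi_reindex e, hdel]
    simpa using h

lemma card_nd (α : Type) [Fintype α] [DecidableEq α] :
    Nat.card {A : α → α → Bool // NearlyDec A} = N (Fintype.card α) := by
  unfold N
  set e := Fintype.equivFin α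
  apply Nat.card_congr
  refine
    { toFun := fun A => ⟨fun i j => A.1 (e.symm i) (e.symm j), (nd_reindex e).2 A.2⟩
      invFun := fun B => ⟨fun i j => B.1 (e i) (e j), ?_⟩
      left_inv := ?_
      right_inv := ?_ }
  · have := (nd_reindex e.symm (A := B.1)).2 B.2
    simpa using this
  · intro A; simp
  · intro B; simp

end lower

section construction

variable {v m : ℕ} [NeZero v]

/-- edge labels: loops `(i,i)`, cycle edges `(i,i+1)`, and `m` free edges -/
abbrev Edge (v m : ℕ) : Type := (ZMod v ⊕ ZMod v) ⊕ Fin m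

/-- the base edge belonging to a label -/
def fe (g : Fin m → ZMod v × ZMod v) : Edge v m → ZMod v × ZMod v
  | Sum.inl (Sum.inl i) => (i, i)
  | Sum.inl (Sum.inr i) => (i, i + 1)
  | Sum.inr t => g t

/-- every base edge replaced by a path of length three -/
def mat (κ : Equiv.Perm (Edge v m)) (g : Fin m → ZMod v × ZMod v) :
    (ZMod v ⊕ Edge v m) → (ZMod v ⊕ Edge v m) → Bool
  | Sum.inl _, Sum.inl _ => false
  | Sum.inl r, Sum.inr j => decide (r = (fe g (κ j)).1)
  | Sum.inr k, Sum.inr j => decide (k = κ j)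
  | Sum.inr k, Sum.inl c => decide (c = (fe g k).2)

/-- label of the loop at `i` -/
def dl (i : ZMod v) : Edge v m := Sum.inl (Sum.inl i)

/-- a perfect matching -/
def sg (κ : Equiv.Perm (Edge v m)) : (ZMod v ⊕ Edge v m) → (ZMod v ⊕ Edge v m)
  | Sum.inl i => Sum.inr (κ.symm (dl i))
  | Sum.inr (Sum.inl (Sum.inl i)) => Sum.inl i
  | Sum.inr (Sum.inl (Sum.inr i)) => Sum.inr (κ.symm (Sum.inl (Sum.inr i)))
  | Sum.inr (Sum.inr t) => Sum.inr (κ.symm (Sum.inr t))

lemma sg_inj (κ : Equiv.Perm (Edge v m)) : Function.Injective (sg κ) := by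
  intro a b h
  rcases a with i | (i | i) | t <;> rcases b with j | (j | j) | s <;>
    simp_all [sg, dl]

lemma mat_sg (κ : Equiv.Perm (Edge v m)) (g : Fin m → ZMod v × ZMod v) (a : ZMod v ⊕ Edge v m) :
    mat κ g a (sg κ a) = true := by
  rcases a with i | (i | i) | t <;> simp [sg, dl, mat, fe]

lemma mat_fi (κ : Equiv.Perm (Edge v m)) (g : Fin m → ZMod v × ZMod v) : FullyIndec (mat κ g) := by
  have hv : 1 ≤ v := Nat.one_le_iff_ne_zero.2 (NeZero.ne v)
  have hcard : Fintype.card (ZMod v ⊕ Edge v m) = v + ((v + v) + m) := by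
    simp [Fintype.card_sum, ZMod.card]
  refine ⟨?_, fun h => by omega⟩
  rintro ⟨S, T, h1, h2, h3, h4⟩
  have hST : Disjoint (S.image (sg κ)) T := by
    rw [disjoint_left]
    intro j hj hjT
    obtain ⟨i, hi, rfl⟩ := mem_image.1 hj
    have := h4 i hi _ hjT
    rw [mat_sg] at this
    exact Bool.false_ne_true this.symm
  have hcov : S.image (sg κ) ∪ T = univ := by
    rw [← Finset.card_eq_iff_eq_univ, card_union_of_disjoint hST,
      card_image_of_injective _ (sg_inj κ), h3]
  -- closure
  have hC : ∀ a ∈ S, ∀ b, mat κ g a (sg κ b) = true → b ∈ S := by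
    intro a ha b hab
    have : sg κ b ∈ S.image (sg κ) ∪ T := by rw [hcov]; exact mem_univ _
    rcases mem_union.1 this with h | h
    · obtain ⟨i, hi, hib⟩ := mem_image.1 h
      rw [← sg_inj κ hib]; exact hi
    · have := h4 a ha _ h
      rw [hab] at this
      exact absurd this (by simp)
  have hb : ∀ k : Edge v m, Sum.inr k ∈ S → Sum.inr (dl (fe g k).2) ∈ S := by
    intro k hk
    apply hC _ hk
    simp [sg, dl, mat]
  have hc : ∀ i : ZMod v, (Sum.inr (dl i) : ZMod v ⊕ Edge v m) ∈ S → (Sum.inl i : ZMod v ⊕ Edge v m) ∈ S := by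
    intro i hi
    apply hC _ hi
    simp [sg, mat]
  have ha1 : ∀ i : ZMod v, (Sum.inl i : ZMod v ⊕ Edge v m) ∈ S →
      (Sum.inr (Sum.inl (Sum.inr i)) : ZMod v ⊕ Edge v m) ∈ S := by
    intro i hi
    apply hC _ hi
    simp [sg, mat, fe]
  have ha2 : ∀ t : Fin m, (Sum.inl (g t).1 : ZMod v ⊕ Edge v m) ∈ S →
      (Sum.inr (Sum.inr t) : ZMod v ⊕ Edge v m) ∈ S := by
    intro t ht
    apply hC _ ht
    simp [sg, mat, fe]
  have hstep : ∀ i : ZMod v, (Sum.inl i : ZMod v ⊕ Edge v m) ∈ S →
      (Sum.inr (dl (i+1)) : ZMod v ⊕ Edge v m) ∈ S ∧ (Sum.inl (i+1) : ZMod v ⊕ Edge v m) ∈ S := by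
    intro i hi
    have e1 := hb _ (ha1 i hi)
    have e2 : (fe g (Sum.inl (Sum.inr i) : Edge v m)).2 = i + 1 := rfl
    rw [e2] at e1
    exact ⟨e1, hc _ e1⟩
  obtain ⟨i0, hi0⟩ : ∃ i : ZMod v, (Sum.inl i : ZMod v ⊕ Edge v m) ∈ S := by
    obtain ⟨x, hx⟩ := card_pos.1 h1
    rcases x with i | k
    · exact ⟨i, hx⟩
    · exact ⟨_, hc _ (hb k hx)⟩
  have hn : ∀ n : ℕ, (Sum.inl (i0 + n) : ZMod v ⊕ Edge v m) ∈ S := by
    intro n
    induction n with
    | zero => simpa using hi0
    | succ n ih =>
      have := (hstep _ ih).2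
      rw [add_assoc] at this
      exact_mod_cast this
  have hall : ∀ i : ZMod v, (Sum.inl i : ZMod v ⊕ Edge v m) ∈ S := by
    intro i
    have := hn (i - i0).val
    rw [ZMod.natCast_zmod_val, add_sub_cancel] at this
    exact this
  have hSu : S = univ := by
    rw [eq_univ_iff_forall]
    intro x
    rcases x with i | (i | i) | t
    · exact hall i
    · have := (hstep (i-1) (hall _)).1
      rw [sub_add_cancel] at this
      exact this
    · exact ha1 i (hall i)
    · exact ha2 t (hall _)
  rw [hSu, card_univ] at h2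
  omega

lemma mat_nd (κ : Equiv.Perm (Edge v m)) (g : Fin m → ZMod v × ZMod v) : NearlyDec (mat κ g) := by
  have hv : 1 ≤ v := Nat.one_le_iff_ne_zero.2 (NeZero.ne v)
  have hcard : Fintype.card (ZMod v ⊕ Edge v m) = v + ((v + v) + m) := by
    simp [Fintype.card_sum, ZMod.card]
  refine ⟨mat_fi κ g, ?_⟩
  -- a row with at most one `1`
  have hrow : ∀ (B : (ZMod v ⊕ Edge v m) → (ZMod v ⊕ Edge v m) → Bool) (i j' : ZMod v ⊕ Edge v m),
      (∀ j, j ≠ j' → B i j = false) → ¬ FullyIndec B := by
    intro B i j' h hB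
    apply hB.1
    refine ⟨{i}, univ.erase j', ?_, ?_, ?_, ?_⟩
    · rw [card_singleton]
    · rw [card_singleton, hcard]; omega
    · rw [card_singleton, card_erase_of_mem (mem_univ _), card_univ, hcard]; omega
    · intro a ha j hj
      rw [mem_singleton] at ha
      rw [ha]; exact h j (mem_erase.1 hj).1
  have hcol : ∀ (B : (ZMod v ⊕ Edge v m) → (ZMod v ⊕ Edge v m) → Bool) (j i' : ZMod v ⊕ Edge v m),
      (∀ i, i ≠ i' → B i j = false) → ¬ FullyIndec B := by
    intro B j i' h hB
    apply hB.1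
    refine ⟨univ.erase i', {j}, ?_, ?_, ?_, ?_⟩
    · rw [card_erase_of_mem (mem_univ _), card_univ, hcard]; omega
    · rw [card_erase_of_mem (mem_univ _), card_univ]
    · rw [card_singleton, card_erase_of_mem (mem_univ _), card_univ, hcard]; omega
    · intro i hi a ha
      rw [mem_singleton] at ha
      rw [ha]; exact h i (mem_erase.1 hi).1
  intro i j hij
  rcases i with r | k
  · rcases j with c | j0
    · simp [mat] at hij
    · apply hcol _ (Sum.inr j0) (Sum.inr (κ j0))
      intro a ha
      unfold del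
      rcases a with r' | k'
      · by_cases hr : r' = r
        · rw [if_pos ⟨by rw [hr], rfl⟩]
        · rw [if_neg (by simp [hr])]
          simp only [mat, decide_eq_true_eq] at hij
          simp only [mat, decide_eq_false_iff_not]
          rw [← hij]; exact hr
      · rw [if_neg (by simp)]
        simp only [mat, decide_eq_false_iff_not]
        rintro rfl
        exact ha rfl
  · rcases j with c | j0
    · -- the other one of row `k` is in column `κ⁻¹ k`
      apply hrow _ (Sum.inr k) (Sum.inr (κ.symm k))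
      intro a ha
      unfold del
      rcases a with c' | j'
      · by_cases hc : c' = c
        · rw [if_pos ⟨rfl, by rw [hc]⟩]
        · rw [if_neg (by simp [hc])]
          simp only [mat, decide_eq_true_eq] at hij
          simp only [mat, decide_eq_false_iff_not]
          rw [← hij]; exact hc
      · rw [if_neg (by simp)]
        simp only [mat, decide_eq_false_iff_not]
        rintro rfl
        exact ha (by simp)
    · apply hrow _ (Sum.inr k) (Sum.inl (fe g k).2)
      intro a ha
      unfold del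
      rcases a with c' | j'
      · rw [if_neg (by simp)]
        simp only [mat, decide_eq_false_iff_not]
        rintro rfl
        exact ha rfl
      · by_cases hj : j' = j0
        · rw [if_pos ⟨rfl, by rw [hj]⟩]
        · rw [if_neg (by simp [hj])]
          simp only [mat, decide_eq_true_eq] at hij
          simp only [mat, decide_eq_false_iff_not]
          rw [hij]
          intro h
          exact hj (κ.injective h).symm

lemma mat_inj : Function.Injective (fun p : Equiv.Perm (Edge v m) × (Fin m → ZMod v × ZMod v) =>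
    mat p.1 p.2) := by
  rintro ⟨κ, g⟩ ⟨κ', g'⟩ h
  simp only at h
  have hκ : κ = κ' := by
    ext1 j
    have h1 : mat κ g (Sum.inr (κ j)) (Sum.inr j) = mat κ' g' (Sum.inr (κ j)) (Sum.inr j) := by rw [h]
    simp only [mat, decide_true] at h1
    exact of_decide_eq_true h1.symm
  subst hκ
  have hg : g = g' := by
    funext t
    apply Prod.ext
    · have h1 : mat κ g (Sum.inl (g t).1) (Sum.inr (κ.symm (Sum.inr t))) =
          mat κ g' (Sum.inl (g t).1) (Sum.inr (κ.symm (Sum.inr t))) := by rw [h]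
      simp only [mat, Equiv.apply_symm_apply, fe, decide_true] at h1
      exact of_decide_eq_true h1.symm
    · have h1 : mat κ g (Sum.inr (Sum.inr t)) (Sum.inl (g t).2) =
          mat κ g' (Sum.inr (Sum.inr t)) (Sum.inl (g t).2) := by rw [h]
      simp only [mat, fe, decide_true] at h1
      exact of_decide_eq_true h1.symm
  rw [hg]

lemma count_lower (v m : ℕ) [NeZero v] : (2 * v + m).factorial * (v * v) ^ m ≤ N (3 * v + m) := by
  have hcard : Fintype.card (ZMod v ⊕ Edge v m) = 3 * v + m := by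
    simp [Fintype.card_sum, ZMod.card]; ring
  have hcardE : Fintype.card (Edge v m) = 2 * v + m := by
    simp [Fintype.card_sum, ZMod.card]; ring
  rw [← hcard, ← card_nd]
  have h1 : Nat.card (Equiv.Perm (Edge v m) × (Fin m → ZMod v × ZMod v)) =
      (2 * v + m).factorial * (v * v) ^ m := by
    rw [Nat.card_eq_fintype_card, Fintype.card_prod, Fintype.card_perm, hcardE, Fintype.card_fun,
      Fintype.card_prod, ZMod.card, Fintype.card_fin]
  rw [← h1]
  apply Nat.card_le_card_of_injective
    (fun p => (⟨mat p.1 p.2, mat_nd p.1 p.2⟩ : {A : (ZMod v ⊕ Edge v m) → (ZMod v ⊕ Edge v m) → Bool //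
      NearlyDec A}))
  intro p q h
  apply mat_inj
  simpa using h

end construction

section asymptotics

open Filter Topology

lemma log_factorial_ge (k : ℕ) (hk : 1 ≤ k) :
    (k:ℝ) * Real.log k - k ≤ Real.log (k.factorial) := by
  have h1 := Real.pow_div_factorial_le_exp (k:ℝ) (by positivity) k
  have hk0 : (0:ℝ) < k := by exact_mod_cast hk
  have hf : (0:ℝ) < k.factorial := by exact_mod_cast k.factorial_pos
  have h2 : Real.log ((k:ℝ)^k / k.factorial) ≤ k := by
    have h3 := Real.log_le_log (div_pos (pow_pos hk0 _) hf) h1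
    rwa [Real.log_exp] at h3
  rw [Real.log_div (pow_pos hk0 _).ne' hf.ne', Real.log_pow] at h2
  linarith

lemma lower_real (n : ℕ) (hL : 6 ≤ Real.log n) :
    0 < N n ∧
    3 * (n * Real.log n) - 2 * (n * Real.log (Real.log n)) - 11 * n ≤ Real.log (N n) := by
  set L := Real.log n with hLdef
  have hn0 : (0:ℝ) < n := by
    by_contra h
    push Not at h
    have : (n:ℝ) = 0 := le_antisymm h (Nat.cast_nonneg _)
    rw [hLdef, this, Real.log_zero] at hL
    norm_num at hL
  have hexp : Real.exp L = n := Real.exp_log hn0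
  have hquad := Real.quadratic_le_exp_of_nonneg (show (0:ℝ) ≤ L by linarith)
  rw [hexp] at hquad
  have hn2L : 2 * L ≤ n := by nlinarith
  have hL0 : 0 < L := by linarith
  set v := ⌊(n:ℝ) / L⌋₊ with hv
  have hv1 : (v:ℝ) ≤ n / L := Nat.floor_le (by positivity)
  have hv2 : (n:ℝ) / L < v + 1 := Nat.lt_floor_add_one _
  have hnL : 2 ≤ (n:ℝ) / L := by rw [le_div_iff₀ hL0]; exact hn2L
  have hv3 : (n:ℝ) / (2 * L) ≤ v := by
    have : (n:ℝ) / (2 * L) = (n / L) / 2 := by field_simp
    rw [this]; linarith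
  have hvpos : (0:ℝ) < v := by linarith
  have hv1' : 1 ≤ v := by
    have : 0 < v := by exact_mod_cast hvpos
    omega
  have hvL : v * L ≤ n := by
    have := mul_le_mul_of_nonneg_right hv1 hL0.le
    rwa [div_mul_cancel₀ _ hL0.ne'] at this
  have h6v : 6 * (v:ℝ) ≤ n := by nlinarith
  have h3v : 3 * v ≤ n := by
    have : 6 * v ≤ n := by exact_mod_cast h6v
    omega
  obtain ⟨m, hm⟩ := Nat.exists_eq_add_of_le h3v
  have : NeZero v := ⟨by omega⟩
  have hlow := count_lower v m
  rw [← hm] at hlow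
  have hpos : 0 < (2 * v + m).factorial * (v * v) ^ m := by positivity
  refine ⟨lt_of_lt_of_le hpos hlow, ?_⟩
  have hlow' : (((2 * v + m).factorial * (v * v) ^ m : ℕ) : ℝ) ≤ N n := by exact_mod_cast hlow
  have h1 : Real.log (((2 * v + m).factorial * (v * v) ^ m : ℕ) : ℝ) ≤ Real.log (N n) :=
    Real.log_le_log (by exact_mod_cast hpos) hlow'
  have h2 : Real.log (((2 * v + m).factorial * (v * v) ^ m : ℕ) : ℝ) =
      Real.log ((2*v+m).factorial) + 2 * (m * Real.log v) := by
    push_cast
    rw [Real.log_mul (by positivity) (by positivity), Real.log_pow, Real.log_mul hvpos.ne' hvpos.ne']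
    ring
  have hmr : (m:ℝ) = n - 3 * v := by
    have : ((n:ℕ):ℝ) = ((3 * v + m : ℕ) : ℝ) := by rw [← hm]
    push_cast at this
    linarith
  have hk : ((2 * v + m : ℕ) : ℝ) = n - v := by push_cast; rw [hmr]; ring
  have h3 := log_factorial_ge (2 * v + m) (by omega)
  rw [hk] at h3
  -- log (n - v)
  have hnv : (0:ℝ) < n - v := by linarith
  have h4 : L - 2 * (v / n) ≤ Real.log (n - v) := by
    have e1 : (n:ℝ) - v = n * (1 - v / n) := by field_simp
    have hx : (v:ℝ) / n ≤ 1/6 := by rw [div_le_iff₀ hn0]; linarith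
    have hx0 : 0 < 1 - (v:ℝ) / n := by linarith
    rw [e1, Real.log_mul hn0.ne' hx0.ne']
    have h5 := Real.one_sub_inv_le_log_of_pos hx0
    have h6 : (1 - (v:ℝ)/n)⁻¹ ≤ 1 + 2 * (v / n) := by
      rw [inv_le_iff_one_le_mul₀ hx0]
      have : 0 ≤ (v:ℝ)/n := by positivity
      nlinarith
    linarith
  have h5 : (n:ℝ) * L - 3 * n ≤ Real.log ((2*v+m).factorial) := by
    have e1 : (n - (v:ℝ)) * (L - 2 * (v / n)) ≤ (n - v) * Real.log (n - v) :=
      mul_le_mul_of_nonneg_left h4 hnv.le
    have e2 : (n - (v:ℝ)) * (2 * (v / n)) ≤ 2 * v := by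
      have e3 : (n:ℝ) * (2 * (v / n)) = 2 * v := by field_simp
      have e4 : 0 ≤ (v:ℝ) * (2 * (v / n)) := by positivity
      have e5 : ((n:ℝ) - v) * (2 * (v / n)) = n * (2 * (v / n)) - v * (2 * (v / n)) := by ring
      rw [e5, e3]; linarith
    have e6 : ((n:ℝ) - v) * (L - 2 * (v / n)) = n * L - v * L - (n - v) * (2 * (v / n)) := by ring
    rw [e6] at e1
    linarith
  -- log v
  have h6 : L - Real.log L - Real.log 2 ≤ Real.log v := by
    have e1 : Real.log ((n:ℝ) / (2 * L)) ≤ Real.log v := Real.log_le_log (by positivity) hv3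
    rw [Real.log_div hn0.ne' (by positivity), Real.log_mul (by norm_num) hL0.ne'] at e1
    linarith
  have hlogL : 0 ≤ Real.log L := Real.log_nonneg (by linarith)
  have hlog2 : 0 ≤ Real.log 2 := Real.log_nonneg (by norm_num)
  have hlog2' : Real.log 2 ≤ 1 := by
    have := Real.log_two_lt_d9; linarith
  have h7 : 2 * (n * L) - 2 * (n * Real.log L) - 8 * n ≤ 2 * (m * Real.log v) := by
    have e1 : (m:ℝ) * (L - Real.log L - Real.log 2) ≤ m * Real.log v :=
      mul_le_mul_of_nonneg_left h6 (Nat.cast_nonneg _)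
    rw [hmr] at e1 ⊢
    have e2 : (v:ℝ) * (L - Real.log L - Real.log 2) ≤ v * L :=
      mul_le_mul_of_nonneg_left (by linarith) hvpos.le
    have e3 : (n:ℝ) * Real.log 2 ≤ n * 1 := mul_le_mul_of_nonneg_left hlog2' hn0.le
    have e4 : ((n:ℝ) - 3 * v) * (L - Real.log L - Real.log 2) =
        n * L - n * Real.log L - n * Real.log 2 - 3 * (v * (L - Real.log L - Real.log 2)) := by ring
    rw [e4] at e1
    linarith
  rw [h2] at h1
  linarith

end asymptotics

section structureLemma

variable {α : Type} [Fintype α] [DecidableEq α]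

lemma pd_of_not_fi (hn : 2 ≤ Fintype.card α) {B : α → α → Bool} (h : ¬ FullyIndec B) : PartlyDec B := by
  by_contra h'
  exact h ⟨h', fun h1 => by omega⟩

/-- certificate that the entry `(i, σ j)` cannot be deleted -/
lemma cert (hn : 2 ≤ Fintype.card α) {A : α → α → Bool} (hA : NearlyDec A) {i k : α} (hik : A i k = true) :
    ∃ S T : Finset α, i ∈ S ∧ k ∈ T ∧ S.card + T.card = Fintype.card α ∧
      ∀ x ∈ S, ∀ y ∈ T, A x y = true → x = i ∧ y = k := by
  obtain ⟨S, T, h1, h2, h3, h4⟩ := pd_of_not_fi hn (hA.2 i k hik)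
  have h5 : ∀ x ∈ S, ∀ y ∈ T, A x y = true → x = i ∧ y = k := by
    intro x hx y hy hxy
    have := h4 x hx y hy
    unfold del at this
    split_ifs at this with h
    · exact h
    · rw [hxy] at this; exact absurd this (by simp)
  have h6 : i ∈ S ∧ k ∈ T := by
    by_contra hcon
    apply hA.1.1
    refine ⟨S, T, h1, h2, h3, fun x hx y hy => ?_⟩
    by_contra hne
    rw [Bool.not_eq_false] at hne
    obtain ⟨rfl, rfl⟩ := h5 x hx y hy hne
    exact hcon ⟨hx, hy⟩
  exact ⟨S, T, h6.1, h6.2, h3, h5⟩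

variable {A : α → α → Bool} {σ : α → α}

/-- arcs of the digraph obtained by contracting the matching -/
def Arc (A : α → α → Bool) (σ : α → α) (i j : α) : Prop := i ≠ j ∧ A i (σ j) = true

lemma leaving (hA : NearlyDec A) (hσ : Function.Bijective σ) (S : Finset α) (h0 : S.Nonempty) (h1 : S ≠ univ) :
    ∃ i ∈ S, ∃ j ∉ S, Arc A σ i j := by
  obtain ⟨i, hi, j, hj, h⟩ := exists_leaving hA.1 hσ S h0 h1
  exact ⟨i, hi, j, hj, by rintro rfl; exact hj hi, h⟩

/-- each arc is the only arc leaving some set -/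
lemma arc_cert (hn : 2 ≤ Fintype.card α) (hA : NearlyDec A) (hσ : Function.Bijective σ)
    (hσA : ∀ i, A i (σ i) = true) {i j : α} (hij : Arc A σ i j) :
    ∃ X : Finset α, i ∈ X ∧ j ∉ X ∧ ∀ x ∈ X, ∀ y ∉ X, Arc A σ x y → x = i ∧ y = j := by
  obtain ⟨S, T, hi, hj, hcard, h⟩ := cert hn hA hij.2
  have hdis : Disjoint (S.image σ) T := by
    rw [disjoint_left]
    intro y hy hyT
    obtain ⟨x, hx, rfl⟩ := mem_image.1 hy
    obtain ⟨h1, h2⟩ := h x hx _ hyT (hσA x)
    exact hij.1 (h1.symm.trans (hσ.1 h2))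
  have hcov : S.image σ ∪ T = univ := by
    rw [← Finset.card_eq_iff_eq_univ, card_union_of_disjoint hdis, card_image_of_injective _ hσ.1, hcard]
  have hT : ∀ v, v ∉ S → σ v ∈ T := by
    intro v hv
    have : σ v ∈ S.image σ ∪ T := by rw [hcov]; exact mem_univ _
    rcases mem_union.1 this with h | h
    · obtain ⟨x, hx, hxv⟩ := mem_image.1 h
      rw [hσ.1 hxv] at hx
      exact absurd hx hv
    · exact h
  refine ⟨S, hi, ?_, ?_⟩
  · intro hjS
    exact (disjoint_left.1 hdis) (mem_image.2 ⟨j, hjS, rfl⟩) hj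
  · intro x hx y hy hxy
    obtain ⟨h1, h2⟩ := h x hx _ (hT y hy) hxy.2
    exact ⟨h1, hσ.1 h2⟩

/-- no vertex separates the digraph into two parts without arcs between them -/
lemma no_cut (hn : 2 ≤ Fintype.card α) (hA : NearlyDec A) (hσ : Function.Bijective σ)
    (hσA : ∀ i, A i (σ i) = true) (v : α) (Q : Finset α) (hvQ : v ∉ Q) (hQ : Q.Nonempty)
    (hQ2 : ∃ y, y ∉ Q ∧ y ≠ v)
    (hno1 : ∀ x ∈ Q, ∀ y, y ∉ Q → y ≠ v → ¬ Arc A σ x y)
    (hno2 : ∀ x ∈ Q, ∀ y, y ∉ Q → y ≠ v → ¬ Arc A σ y x) : False := by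
  obtain ⟨S, T, hvS, hvT, hcard, h⟩ := cert hn hA (hσA v)
  set T' : Finset α := univ.filter fun x => σ x ∈ T with hT'
  have hmT' : ∀ x, x ∈ T' ↔ σ x ∈ T := by intro x; simp [hT']
  have hT'card : T'.card = T.card := by
    have : T = T'.image σ := by
      ext y
      rw [mem_image]
      constructor
      · intro hy
        obtain ⟨x, rfl⟩ := hσ.2 y
        exact ⟨x, (hmT' x).2 hy, rfl⟩
      · rintro ⟨x, hx, rfl⟩
        exact (hmT' x).1 hx
    rw [this, card_image_of_injective _ hσ.1]
  have hinter : S ∩ T' = {v} := by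
    ext x
    rw [mem_inter, mem_singleton, hmT']
    constructor
    · rintro ⟨hx, hx'⟩
      exact (h x hx _ hx' (hσA x)).1
    · rintro rfl
      exact ⟨hvS, hvT⟩
  have hunion : (S ∪ T').card + 1 = Fintype.card α := by
    have := card_union_add_card_inter S T'
    rw [hinter, card_singleton, hT'card, hcard] at this
    exact this
  have hnoarc : ∀ x ∈ S, ∀ y ∈ T', ¬ Arc A σ x y := by
    intro x hx y hy hxy
    obtain ⟨h1, h2⟩ := h x hx _ ((hmT' y).1 hy) hxy.2
    exact hxy.1 (h1.trans (hσ.1 h2).symm)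
  obtain ⟨w, hw⟩ : ∃ w, w ∉ S ∪ T' := by
    by_contra hcon
    push Not at hcon
    have : S ∪ T' = univ := by ext; simp [hcon]
    rw [this, card_univ] at hunion; omega
  have hall : ∀ x, x ≠ w → x ∈ S ∪ T' := by
    intro x hx
    by_contra hcon
    have : (S ∪ T') ⊆ (univ.erase w).erase x := by
      intro z hz
      refine mem_erase.2 ⟨?_, mem_erase.2 ⟨?_, mem_univ _⟩⟩
      · rintro rfl; exact hcon hz
      · rintro rfl; exact hw hz
    have := card_le_card this
    rw [card_erase_of_mem (mem_erase.2 ⟨hx, mem_univ _⟩), card_erase_of_mem (mem_univ _), card_univ] at this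
    omega
  -- the part missing `w`
  have core : ∀ Q : Finset α, v ∉ Q → Q.Nonempty → w ∉ Q →
      (∀ x ∈ Q, ∀ y, y ∉ Q → y ≠ v → ¬ Arc A σ x y) →
      (∀ x ∈ Q, ∀ y, y ∉ Q → y ≠ v → ¬ Arc A σ y x) → False := by
    intro Q hvQ hQ hwQ hno1 hno2
    have hQS : Q ∩ S = ∅ := by
      by_contra hne
      obtain ⟨x, hx, y, hy, hxy⟩ := leaving hA hσ (Q ∩ S) (nonempty_iff_ne_empty.2 hne) (by
        intro hu
        have : v ∈ Q ∩ S := by rw [hu]; exact mem_univ _
        exact hvQ (mem_inter.1 this).1)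
      rw [mem_inter] at hx hy
      by_cases hyv : y = v
      · subst hyv
        exact hnoarc x hx.2 y ((hmT' y).2 hvT) hxy
      · by_cases hyQ : y ∈ Q
        · have hyS : y ∉ S := fun h => hy ⟨hyQ, h⟩
          have := hall y (by rintro rfl; exact hwQ hyQ)
          rcases mem_union.1 this with h' | h'
          · exact hyS h'
          · exact hnoarc x hx.2 y h' hxy
        · exact hno1 x hx.1 y hyQ hyv hxy
    have hQT : ∀ x ∈ Q, x ∈ T' := by
      intro x hx
      have := hall x (by rintro rfl; exact hwQ hx)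
      rcases mem_union.1 this with h' | h'
      · exfalso
        have : x ∈ Q ∩ S := mem_inter.2 ⟨hx, h'⟩
        rw [hQS] at this; exact notMem_empty _ this
      · exact h'
    obtain ⟨x, hx, y, hy, hxy⟩ := leaving hA hσ (univ \ Q) ⟨v, mem_sdiff.2 ⟨mem_univ _, hvQ⟩⟩ (by
      intro hu
      obtain ⟨z, hz⟩ := hQ
      have : z ∈ univ \ Q := by rw [hu]; exact mem_univ _
      exact (mem_sdiff.1 this).2 hz)
    have hyQ : y ∈ Q := by
      by_contra h'
      exact hy (mem_sdiff.2 ⟨mem_univ _, h'⟩)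
    have hxQ := (mem_sdiff.1 hx).2
    by_cases hxv : x = v
    · subst hxv
      exact hnoarc x hvS y (hQT y hyQ) hxy
    · exact hno2 y hyQ x hxQ hxv hxy
  by_cases hwQ : w ∈ Q
  · apply core (univ \ insert v Q)
    · simp
    · obtain ⟨y, hy, hyv⟩ := hQ2
      exact ⟨y, by simp [hy, hyv]⟩
    · simp [hwQ]
    · intro x hx y hy hyv hxy
      have hx' : x ∉ Q ∧ x ≠ v := by
        simp only [mem_sdiff, mem_univ, true_and, mem_insert] at hx
        push Not at hx; exact ⟨hx.2, hx.1⟩
      have hy' : y ∈ Q := by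
        simp only [mem_sdiff, mem_univ, true_and, mem_insert, not_not] at hy
        exact hy.resolve_left hyv
      exact hno2 y hy' x hx'.1 hx'.2 hxy
    · intro x hx y hy hyv hxy
      have hx' : x ∉ Q ∧ x ≠ v := by
        simp only [mem_sdiff, mem_univ, true_and, mem_insert] at hx
        push Not at hx; exact ⟨hx.2, hx.1⟩
      have hy' : y ∈ Q := by
        simp only [mem_sdiff, mem_univ, true_and, mem_insert, not_not] at hy
        exact hy.resolve_left hyv
      exact hno1 y hy' x hx'.1 hx'.2 hxy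
  · exact core Q hvQ hQ hwQ hno1 hno2

/-- the key claim: a vertex outside `{s} ∪ F ∪ q(F)` has in-degree and out-degree one -/
lemma deg_one (hn : 2 ≤ Fintype.card α) (hA : NearlyDec A) (hσ : Function.Bijective σ)
    (hσA : ∀ i, A i (σ i) = true) (s : α) (q p : α → α)
    (hq1 : ∀ v, v ≠ s → Arc A σ (q v) v)
    (hq2 : ∀ S : Finset α, s ∈ S → S ≠ univ → ∃ v, v ∉ S ∧ v ≠ s ∧ q v ∈ S)
    (hp1 : ∀ v, v ≠ s → Arc A σ v (p v))
    (hp2 : ∀ S : Finset α, s ∈ S → S ≠ univ → ∃ v, v ∉ S ∧ v ≠ s ∧ p v ∈ S)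
    {v : α} (hvs : v ≠ s) (h1 : ¬ (p v ≠ s ∧ q (p v) = v)) (h2 : ¬ (q v ≠ s ∧ p (q v) = v)) :
    (∀ x, Arc A σ x v → x = q v) ∧ (∀ y, Arc A σ v y → y = p v) := by
  obtain ⟨X, hvX, hpX, hX⟩ := arc_cert hn hA hσ hσA (hp1 v hvs)
  obtain ⟨Y', hqY, hvY, hY'⟩ := arc_cert hn hA hσ hσA (hq1 v hvs)
  -- `Y` is the complement of `Y'`
  have hsX : s ∉ X := by
    intro hs
    obtain ⟨w, hw, hws, hqw⟩ := hq2 X hs (by rintro rfl; exact hpX (mem_univ _))
    obtain ⟨e1, e2⟩ := hX _ hqw _ hw (hq1 w hws)
    apply h1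
    rw [← e2]
    exact ⟨hws, e1⟩
  have hsY : s ∈ Y' := by
    by_contra hs
    obtain ⟨w, hw, hws, hpw⟩ := hp2 (univ \ Y') (mem_sdiff.2 ⟨mem_univ _, hs⟩) (by
      intro hu
      have : q v ∈ univ \ Y' := by rw [hu]; exact mem_univ _
      exact (mem_sdiff.1 this).2 hqY)
    have hw' : w ∈ Y' := by
      by_contra h'
      exact hw (mem_sdiff.2 ⟨mem_univ _, h'⟩)
    obtain ⟨e1, e2⟩ := hY' _ hw' _ (mem_sdiff.1 hpw).2 (hp1 w hws)
    apply h2
    rw [← e1]
    exact ⟨hws, e2⟩
  -- X ⊆ Y
  have hXY : ∀ x ∈ X, x ∉ Y' := by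
    by_contra hcon
    push Not at hcon
    obtain ⟨x0, hx0, hx0'⟩ := hcon
    set S1 : Finset α := univ.filter fun x => x ∉ X ∨ x ∉ Y' with hS1
    have hmem : ∀ x, x ∈ S1 ↔ (x ∉ X ∨ x ∉ Y') := by intro x; simp [hS1]
    obtain ⟨x, hx, hxs, hpx⟩ := hp2 S1 ((hmem s).2 (Or.inl hsX)) (by
      intro hu
      have : x0 ∈ S1 := by rw [hu]; exact mem_univ _
      rcases (hmem x0).1 this with h | h
      · exact h hx0
      · exact h hx0')
    rw [hmem] at hx hpx
    push Not at hx
    rcases hpx with h | h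
    · obtain ⟨e1, _⟩ := hX x hx.1 _ h (hp1 x hxs)
      rw [e1] at hx
      exact hvY hx.2
    · obtain ⟨e1, e2⟩ := hY' x hx.2 _ h (hp1 x hxs)
      apply h2
      rw [← e1]
      exact ⟨hxs, e2⟩
  -- Y ⊆ X
  have hYX : ∀ y, y ∉ Y' → y ∈ X := by
    by_contra hcon
    push Not at hcon
    obtain ⟨y0, hy0, hy0'⟩ := hcon
    set S2 : Finset α := univ.filter fun y => y ∈ Y' ∨ y ∈ X with hS2
    have hmem : ∀ y, y ∈ S2 ↔ (y ∈ Y' ∨ y ∈ X) := by intro y; simp [hS2]
    obtain ⟨y, hy, hys, hqy⟩ := hq2 S2 ((hmem s).2 (Or.inl hsY)) (by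
      intro hu
      have : y0 ∈ S2 := by rw [hu]; exact mem_univ _
      rcases (hmem y0).1 this with h | h
      · exact hy0 h
      · exact hy0' h)
    rw [hmem] at hy hqy
    push Not at hy
    rcases hqy with h | h
    · obtain ⟨_, e2⟩ := hY' _ h y hy.1 (hq1 y hys)
      rw [e2] at hy
      exact hy.2 hvX
    · obtain ⟨e1, e2⟩ := hX _ h y hy.2 (hq1 y hys)
      apply h1
      rw [← e2]
      exact ⟨hys, e1⟩
  have hZ : ∀ x ∈ X, x = v := by
    by_contra hcon
    push Not at hcon
    obtain ⟨x0, hx0, hx0v⟩ := hcon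
    apply no_cut hn hA hσ hσA v (X.erase v) (notMem_erase _ _) ⟨x0, mem_erase.2 ⟨hx0v, hx0⟩⟩
      ⟨s, fun h => hsX (mem_of_mem_erase h), hvs.symm⟩
    · intro x hx y hy hyv hxy
      have hyX : y ∉ X := fun h => hy (mem_erase.2 ⟨hyv, h⟩)
      exact (mem_erase.1 hx).1 (hX x (mem_of_mem_erase hx) y hyX hxy).1
    · intro x hx y hy hyv hxy
      have hyX : y ∉ X := fun h => hy (mem_erase.2 ⟨hyv, h⟩)
      have hyY : y ∈ Y' := by
        by_contra h; exact hyX (hYX y h)
      exact (mem_erase.1 hx).1 (hY' y hyY x (hXY x (mem_of_mem_erase hx)) hxy).2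
  constructor
  · intro x hx
    have hxX : x ∉ X := fun h => hx.1 (hZ x h)
    have hxY : x ∈ Y' := by
      by_contra h; exact hxX (hYX x h)
    exact (hY' x hxY v hvY hx).1
  · intro y hy
    have hyX : y ∉ X := fun h => hy.1 (hZ y h).symm
    exact (hX v hvX y hyX hy).2

/-- ones of a row / of a column -/
def rowOnes (A : α → α → Bool) (i : α) : Finset α := univ.filter fun j => A i j = true
def colOnes (A : α → α → Bool) (j : α) : Finset α := univ.filter fun i => A i j = true

lemma two_le_rowOnes (hA : NearlyDec A) (hn : 2 ≤ Fintype.card α) (i : α) : 2 ≤ (rowOnes A i).card := by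
  obtain ⟨σ, hσ, hσA⟩ := exists_matching hn hA.1
  obtain ⟨x, hx, y, hy, hxy⟩ := leaving hA hσ {i} (singleton_nonempty i) (by
    intro h
    have := congrArg Finset.card h
    rw [card_singleton, card_univ] at this; omega)
  rw [mem_singleton] at hx hy
  subst hx
  rw [← one_add_one_eq_two, Nat.add_one_le_iff, one_lt_card]
  refine ⟨σ x, by simp [rowOnes, hσA], σ y, by simp [rowOnes, hxy.2], ?_⟩
  intro h
  exact hxy.1 (hσ.1 h)

lemma two_le_colOnes (hA : NearlyDec A) (hn : 2 ≤ Fintype.card α) (j : α) : 2 ≤ (colOnes A j).card := by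
  obtain ⟨σ, hσ, hσA⟩ := exists_matching hn hA.1
  obtain ⟨v, rfl⟩ := hσ.2 j
  obtain ⟨x, hx, y, hy, hxy⟩ := leaving hA hσ (univ.erase v) (by
      rw [← card_pos, card_erase_of_mem (mem_univ _), card_univ]; omega) (by
    intro h
    have := congrArg Finset.card h
    rw [card_erase_of_mem (mem_univ _), card_univ] at this; omega)
  have hyv : y = v := by
    by_contra h
    exact hy (mem_erase.2 ⟨h, mem_univ _⟩)
  subst hyv
  rw [← one_add_one_eq_two, Nat.add_one_le_iff, one_lt_card]
  exact ⟨y, by simp [colOnes, hσA], x, by simp [colOnes, hxy.2], hxy.1.symm⟩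

/-- the structure lemma: `4 e + a + b ≤ 12 n - 6` -/
lemma structure_lemma (hn : 2 ≤ Fintype.card α) (hA : NearlyDec A) :
    4 * (univ.filter fun p : α × α => A p.1 p.2 = true).card +
      (univ.filter fun i => 3 ≤ (rowOnes A i).card).card +
      (univ.filter fun j => 3 ≤ (colOnes A j).card).card + 6 ≤ 12 * Fintype.card α := by
  obtain ⟨σ, hσ, hσA⟩ := exists_matching hn hA.1
  obtain ⟨s⟩ : Nonempty α := Fintype.card_pos_iff.1 (by omega)
  obtain ⟨q, hq1, hq2⟩ := branching (fun i j => Arc A σ i j) s (fun S h0 h1 => leaving hA hσ S h0 h1)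
  obtain ⟨p, hp1, hp2⟩ := branching (fun i j => Arc A σ j i) s (by
    intro S h0 h1
    obtain ⟨i, hi, i', hi', h⟩ := leaving hA hσ (univ \ S) (by
      rw [nonempty_iff_ne_empty, Ne, sdiff_eq_empty_iff_subset]
      exact fun h => h1 (univ_subset_iff.1 h)) (by
      intro h
      obtain ⟨x, hx⟩ := h0
      have : x ∈ univ \ S := by rw [h]; exact mem_univ _
      exact (mem_sdiff.1 this).2 hx)
    refine ⟨i', ?_, i, (mem_sdiff.1 hi).2, h⟩
    by_contra h'
    exact hi' (mem_sdiff.2 ⟨mem_univ _, h'⟩))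
  set F : Finset α := univ.filter fun v => v ≠ s ∧ q v ≠ s ∧ p (q v) = v with hF
  set B1 : Finset (α × α) := (univ.erase s).image fun v => (q v, σ v) with hB1
  set B2 : Finset (α × α) := (univ.erase s).image fun v => (v, σ (p v)) with hB2
  set E : Finset (α × α) := (univ.image fun i => (i, σ i)) ∪ (B1 ∪ B2) with hE
  have hEcard : E.card + F.card + 2 ≤ 3 * Fintype.card α := by
    have e1 : (univ.image fun i => (i, σ i)).card ≤ Fintype.card α := by
      refine card_image_le.trans ?_; rw [card_univ]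
    have e2 : B1.card ≤ Fintype.card α - 1 := by
      refine card_image_le.trans ?_
      rw [card_erase_of_mem (mem_univ _), card_univ]
    have e3 : B2.card ≤ Fintype.card α - 1 := by
      refine card_image_le.trans ?_
      rw [card_erase_of_mem (mem_univ _), card_univ]
    have e4 := card_union_le (univ.image fun i => (i, σ i)) (B1 ∪ B2)
    have e5 := card_union_add_card_inter B1 B2
    have e6 : F.card ≤ (B1 ∩ B2).card := by
      rw [← card_image_of_injective F (f := fun v => (q v, σ v)) (by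
        intro x y h
        simp only [Prod.mk.injEq] at h
        exact hσ.1 h.2)]
      apply card_le_card
      intro x hx
      obtain ⟨v, hv, rfl⟩ := mem_image.1 hx
      simp only [hF, mem_filter, mem_univ, true_and] at hv
      refine mem_inter.2 ⟨mem_image.2 ⟨v, mem_erase.2 ⟨hv.1, mem_univ _⟩, rfl⟩, mem_image.2 ⟨q v,
        mem_erase.2 ⟨hv.2.1, mem_univ _⟩, ?_⟩⟩
      rw [hv.2.2]
    rw [hE]
    omega
  have hB : FullyIndec (fun i j => decide ((i, j) ∈ E)) := by
    refine ⟨?_, fun h => by omega⟩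
    rintro ⟨S, T, h1, h2, h3, h4⟩
    have hmemT : ∀ i j, (i, j) ∈ E → i ∈ S → j ∉ T := by
      intro i j hij hi hj
      have := h4 i hi j hj
      simp [hij] at this
    have hST : Disjoint (S.image σ) T := by
      rw [disjoint_left]
      intro j hj
      obtain ⟨i, hi, rfl⟩ := mem_image.1 hj
      exact hmemT i (σ i) (mem_union_left _ (mem_image.2 ⟨i, mem_univ _, rfl⟩)) hi
    have hcov : S.image σ ∪ T = univ := by
      rw [← Finset.card_eq_iff_eq_univ, card_union_of_disjoint hST, card_image_of_injective _ hσ.1, h3]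
    have hT : ∀ v, v ∉ S → σ v ∈ T := by
      intro v hv
      have : σ v ∈ S.image σ ∪ T := by rw [hcov]; exact mem_univ _
      rcases mem_union.1 this with h | h
      · obtain ⟨i, hi, hiv⟩ := mem_image.1 h
        rw [hσ.1 hiv] at hi
        exact absurd hi hv
      · exact h
    have hSne : S ≠ univ := by
      rintro rfl; rw [card_univ] at h2; omega
    by_cases hr : s ∈ S
    · obtain ⟨v, hv, hvr, hpv⟩ := hq2 S hr hSne
      exact hmemT (q v) (σ v) (mem_union_right _ (mem_union_left _
        (mem_image.2 ⟨v, mem_erase.2 ⟨hvr, mem_univ _⟩, rfl⟩))) hpv (hT v hv)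
    · obtain ⟨v, hv, hvr, hqv⟩ := hp2 (univ \ S) (mem_sdiff.2 ⟨mem_univ _, hr⟩) (by
        intro h
        obtain ⟨x, hx⟩ := card_pos.1 h1
        have : x ∈ univ \ S := by rw [h]; exact mem_univ _
        exact (mem_sdiff.1 this).2 hx)
      have hvS : v ∈ S := by
        by_contra h'
        exact hv (mem_sdiff.2 ⟨mem_univ _, h'⟩)
      exact hmemT v (σ (p v)) (mem_union_right _ (mem_union_right _
        (mem_image.2 ⟨v, mem_erase.2 ⟨hvr, mem_univ _⟩, rfl⟩))) hvS (hT _ (mem_sdiff.1 hqv).2)
  have hEA : ∀ i j, (i, j) ∈ E → A i j = true := by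
    intro i j hij
    rcases mem_union.1 hij with h | h
    · obtain ⟨x, _, hx⟩ := mem_image.1 h
      simp only [Prod.mk.injEq] at hx
      rw [← hx.1, ← hx.2]; exact hσA x
    · rcases mem_union.1 h with h | h
      · obtain ⟨x, hx', hx⟩ := mem_image.1 h
        simp only [Prod.mk.injEq] at hx
        rw [← hx.1, ← hx.2]; exact (hq1 x (mem_erase.1 hx').1).2
      · obtain ⟨x, hx', hx⟩ := mem_image.1 h
        simp only [Prod.mk.injEq] at hx
        rw [← hx.1, ← hx.2]; exact (hp1 x (mem_erase.1 hx').1).2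
  have hones : (univ.filter fun p : α × α => A p.1 p.2 = true).card ≤ E.card := by
    apply card_le_card
    intro ⟨i, j⟩ hij
    simp only [mem_filter, mem_univ, true_and] at hij
    by_contra hnot
    apply hA.2 i j hij
    refine fi_mono ?_ hB
    intro a b hab
    simp only [decide_eq_true_eq] at hab
    unfold del
    rw [if_neg]
    · exact hEA a b hab
    · rintro ⟨rfl, rfl⟩; exact hnot hab
  -- vertices outside {s} ∪ F ∪ q(F)
  have hout : ∀ v, v ∉ insert s (F ∪ F.image q) →
      (∀ x, Arc A σ x v → x = q v) ∧ (∀ y, Arc A σ v y → y = p v) := by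
    intro v hv
    simp only [mem_insert, mem_union, not_or] at hv
    obtain ⟨hvs, hvF, hvq⟩ := hv
    apply deg_one hn hA hσ hσA s q p hq1 hq2 hp1 hp2 hvs
    · rintro ⟨h1, h2⟩
      apply hvq
      refine mem_image.2 ⟨p v, ?_, h2⟩
      simp only [hF, mem_filter, mem_univ, true_and]
      exact ⟨h1, by rw [h2]; exact hvs, by rw [h2]⟩
    · rintro ⟨h1, h2⟩
      apply hvF
      simp only [hF, mem_filter, mem_univ, true_and]
      exact ⟨hvs, h1, h2⟩
  have hGcard : (insert s (F ∪ F.image q)).card ≤ 1 + 2 * F.card := by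
    have e1 := card_insert_le s (F ∪ F.image q)
    have e2 := card_union_le F (F.image q)
    have e3 : (F.image q).card ≤ F.card := card_image_le
    omega
  have ha : (univ.filter fun i => 3 ≤ (rowOnes A i).card).card ≤ 1 + 2 * F.card := by
    refine (card_le_card ?_).trans hGcard
    intro v hv
    simp only [mem_filter, mem_univ, true_and] at hv
    by_contra hnot
    have h1 := (hout v hnot).2
    have : rowOnes A v ⊆ {σ v, σ (p v)} := by
      intro j hj
      obtain ⟨y, rfl⟩ := hσ.2 j
      simp only [rowOnes, mem_filter, mem_univ, true_and] at hj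
      by_cases hy : v = y
      · rw [← hy]; simp
      · rw [h1 y ⟨hy, hj⟩]; simp
    have := (card_le_card this).trans card_le_two
    omega
  have hb : (univ.filter fun j => 3 ≤ (colOnes A j).card).card ≤ 1 + 2 * F.card := by
    have h0 : (univ.filter fun j => 3 ≤ (colOnes A j).card) ⊆
        (insert s (F ∪ F.image q)).image σ := by
      intro j hj
      obtain ⟨v, rfl⟩ := hσ.2 j
      simp only [mem_filter, mem_univ, true_and] at hj
      apply mem_image_of_mem
      by_contra hnot
      have h1 := (hout v hnot).1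
      have : colOnes A (σ v) ⊆ {v, q v} := by
        intro x hx
        simp only [colOnes, mem_filter, mem_univ, true_and] at hx
        by_cases hy : x = v
        · rw [hy]; simp
        · rw [h1 x ⟨hy, hx⟩]; simp
      have := (card_le_card this).trans card_le_two
      omega
    exact (card_le_card h0).trans (card_image_le.trans hGcard)
  omega

end structureLemma

section weights

open Filter Topology

/-- weight exponent of a line class -/
noncomputable def ff (n : ℕ) (P : Finset (Fin n)) (i : Fin n) : ℝ :=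
  if i ∈ P then Real.log n - Real.log ((max P.card 1 : ℕ) : ℝ) else 0

lemma sum_exp_ff (n : ℕ) (hn : 1 ≤ n) (P : Finset (Fin n)) :
    ∑ i, Real.exp (ff n P i) ≤ 2 * n := by
  have hn0 : (0:ℝ) < n := by exact_mod_cast hn
  have hm0 : (0:ℝ) < ((max P.card 1 : ℕ) : ℝ) := by
    have : 0 < max P.card 1 := by omega
    exact_mod_cast this
  have h1 : ∀ i, Real.exp (ff n P i) ≤ 1 + (if i ∈ P then (n:ℝ) / ((max P.card 1 : ℕ) : ℝ) else 0) := by
    intro i
    unfold ff
    split_ifs with h
    · rw [Real.exp_sub, Real.exp_log hn0, Real.exp_log hm0]; linarith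
    · rw [Real.exp_zero]; linarith
  refine (sum_le_sum fun i _ => h1 i).trans ?_
  rw [sum_add_distrib, ← sum_filter, sum_const, sum_const, card_univ, Fintype.card_fin]
  have h2 : (univ.filter fun i => i ∈ P) = P := by ext; simp
  rw [h2, nsmul_eq_mul, nsmul_eq_mul, mul_one]
  have h3 : (P.card : ℝ) * (n / ((max P.card 1 : ℕ) : ℝ)) ≤ n := by
    rw [← mul_div_assoc, div_le_iff₀ hm0, mul_comm]
    have : (P.card : ℝ) ≤ ((max P.card 1 : ℕ) : ℝ) := by exact_mod_cast le_max_left _ _
    exact mul_le_mul_of_nonneg_left this hn0.le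
  linarith

/-- the weight of a position -/
noncomputable def ww (n : ℕ) (P Q : Finset (Fin n)) (p : Fin n × Fin n) : ℝ :=
  Real.exp (-(Real.log n - ff n P p.1 - ff n Q p.2))

lemma sum_ww (n : ℕ) (hn : 1 ≤ n) (P Q : Finset (Fin n)) : ∑ p, ww n P Q p ≤ 4 * n := by
  have hn0 : (0:ℝ) < n := by exact_mod_cast hn
  have h1 : ∑ p, ww n P Q p = (∑ i, Real.exp (ff n P i)) * (∑ j, Real.exp (ff n Q j)) / n := by
    rw [Fintype.sum_prod_type, sum_mul_sum, sum_div]
    apply sum_congr rfl
    intro i _
    rw [sum_div]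
    apply sum_congr rfl
    intro j _
    unfold ww
    have : -(Real.log n - ff n P i - ff n Q j) = ff n P i + ff n Q j - Real.log n := by ring
    rw [this, Real.exp_sub, Real.exp_add, Real.exp_log hn0]
  rw [h1, div_le_iff₀ hn0]
  have h2 := sum_exp_ff n hn P
  have h3 := sum_exp_ff n hn Q
  have h4 : 0 ≤ ∑ i, Real.exp (ff n P i) := sum_nonneg fun i _ => (Real.exp_pos _).le
  have h5 : 0 ≤ ∑ i, Real.exp (ff n Q i) := sum_nonneg fun i _ => (Real.exp_pos _).le
  calc _ ≤ (2 * (n:ℝ)) * (2 * n) := mul_le_mul h2 h3 h5 (by positivity)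
    _ = 4 * n * n := by ring

variable {α : Type} [Fintype α] [DecidableEq α]

lemma sum_rows (A : α → α → Bool) (f : α → ℝ) :
    ∑ p ∈ univ.filter (fun p : α × α => A p.1 p.2 = true), f p.1 =
      ∑ i, ((rowOnes A i).card : ℝ) * f i := by
  rw [sum_filter, Fintype.sum_prod_type]
  apply sum_congr rfl
  intro i _
  rw [← sum_filter]
  simp only []
  rw [sum_const, nsmul_eq_mul]
  rfl

lemma sum_cols (A : α → α → Bool) (f : α → ℝ) :
    ∑ p ∈ univ.filter (fun p : α × α => A p.1 p.2 = true), f p.2 =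
      ∑ j, ((colOnes A j).card : ℝ) * f j := by
  rw [sum_filter, Fintype.sum_prod_type_right]
  apply sum_congr rfl
  intro i _
  rw [← sum_filter]
  simp only []
  rw [sum_const, nsmul_eq_mul]
  rfl

/-- sums over the long lines -/
lemma long_sum {c : α → ℕ} {e : ℕ} (hc : ∀ i, 2 ≤ c i) (he : (e:ℝ) = ∑ i, (c i : ℝ)) (t : ℝ) :
    ∑ i, (c i : ℝ) * (if i ∈ univ.filter (fun i => 3 ≤ c i) then t else 0) =
      ((e:ℝ) - 2 * ((Fintype.card α : ℝ) - (univ.filter fun i => 3 ≤ c i).card)) * t := by
  have h1 : ∀ i, (c i : ℝ) * (if i ∈ univ.filter (fun i => 3 ≤ c i) then t else 0) =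
      ((c i : ℝ) - 2 * (1 - (if i ∈ univ.filter (fun i => 3 ≤ c i) then (1:ℝ) else 0))) * t := by
    intro i
    by_cases h : 3 ≤ c i
    · rw [if_pos (by simp [h]), if_pos (by simp [h])]; ring
    · rw [if_neg (by simp [h]), if_neg (by simp [h])]
      have : c i = 2 := by have := hc i; omega
      rw [this]; push_cast; ring
  rw [sum_congr rfl fun i _ => h1 i, ← sum_mul, sum_sub_distrib, ← he, ← mul_sum, sum_sub_distrib]
  congr 2
  rw [sum_const, card_univ, nsmul_eq_mul, mul_one, ← sum_filter, sum_const, nsmul_eq_mul, mul_one]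
  congr 4
  ext i; simp

/-- the real optimisation -/
lemma opt (n e a b la lb L : ℝ) (hn : 0 < n) (hL : 6 ≤ L) (ha0 : 0 ≤ a) (hb0 : 0 ≤ b)
    (hLn : L = Real.log n)
    (hla0 : 0 ≤ la) (hlb0 : 0 ≤ lb) (hla : la ≤ L) (hlb : lb ≤ L)
    (hla2 : la = Real.log (max a 1)) (hlb2 : lb = Real.log (max b 1))
    (he2 : 2 * n ≤ e) (he : 4 * e + a + b ≤ 12 * n) :
    e * L - (e - 2 * (n - a)) * (L - la) - (e - 2 * (n - b)) * (L - lb) ≤
      3 * (n * L) - 2 * (n * Real.log L) + 11 / 5 * n := by
  have hL0 : 0 < L := by linarith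
  have hlog : 2 * Real.log L ≤ L / 2 + 1 := by
    have h1 := Real.log_le_sub_one_of_pos (show 0 < L / 4 by positivity)
    rw [Real.log_div hL0.ne' (by norm_num)] at h1
    have h2 : Real.log 4 = 2 * Real.log 2 := by
      rw [show (4:ℝ) = 2 ^ 2 by norm_num, Real.log_pow]; push_cast; ring
    have := Real.log_two_lt_d9
    linarith
  have hkey : ∀ x lx : ℝ, lx = Real.log (max x 1) → L / 2 ≤ lx →
      n * lx - L / 8 * x ≤ n * (L - Real.log L) + 11 / 10 * n := by
    intro x lx h1 h2
    have hx : 1 < x := by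
      by_contra h
      push Not at h
      rw [max_eq_right h, Real.log_one] at h1
      linarith
    rw [max_eq_left hx.le] at h1
    have hx0 : 0 < x := by linarith
    have h3 := Real.log_le_sub_one_of_pos (show 0 < x * L / (8 * n) by positivity)
    rw [Real.log_div (by positivity) (by positivity), Real.log_mul hx0.ne' hL0.ne',
      Real.log_mul (by norm_num) hn.ne', ← h1, ← hLn] at h3
    have h4 : Real.log 8 = 3 * Real.log 2 := by
      rw [show (8:ℝ) = 2 ^ 3 by norm_num, Real.log_pow]; push_cast; ring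
    have h5 := Real.log_two_lt_d9
    have h6 : lx ≤ x * L / (8 * n) + L - Real.log L + 11/10 := by linarith
    have h7 := mul_le_mul_of_nonneg_left h6 hn.le
    have h8 : n * (x * L / (8 * n)) = L / 8 * x := by field_simp
    nlinarith
  have hid : e * L - (e - 2 * (n - a)) * (L - la) - (e - 2 * (n - b)) * (L - lb) =
      e * (la + lb - L) + 2 * (n - a) * (L - la) + 2 * (n - b) * (L - lb) := by ring
  rw [hid]
  have haL : 0 ≤ a * (L - la) := mul_nonneg ha0 (by linarith)
  have hbL : 0 ≤ b * (L - lb) := mul_nonneg hb0 (by linarith)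
  have hnlog : n * (2 * Real.log L) ≤ n * (L / 2 + 1) := mul_le_mul_of_nonneg_left hlog hn.le
  have hnL : 0 ≤ n * L := by positivity
  by_cases hcase : L ≤ la + lb
  · have h1 : e * (la + lb - L) ≤ (3 * n - (a + b) / 4) * (la + lb - L) :=
      mul_le_mul_of_nonneg_right (by linarith) (by linarith)
    have h2 : e * (la + lb - L) + 2 * (n - a) * (L - la) + 2 * (n - b) * (L - lb) ≤
        n * L + n * (la + lb) - 1/4 * (b * la + a * lb) := by
      nlinarith
    by_cases hA : L / 2 ≤ la
    · by_cases hB : L / 2 ≤ lb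
      · have h3 := hkey a la hla2 hA
        have h4 := hkey b lb hlb2 hB
        have h5 : b * (L / 2) ≤ b * la := mul_le_mul_of_nonneg_left hA hb0
        have h6 : a * (L / 2) ≤ a * lb := mul_le_mul_of_nonneg_left hB ha0
        nlinarith
      · push Not at hB
        have h3 : n * (la + lb) ≤ n * (L + L / 2) := mul_le_mul_of_nonneg_left (by linarith) hn.le
        have h4 : 0 ≤ b * la := by positivity
        have h5 : 0 ≤ a * lb := by positivity
        nlinarith
    · push Not at hA
      have h3 : n * (la + lb) ≤ n * (L + L / 2) := mul_le_mul_of_nonneg_left (by linarith) hn.le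
      have h4 : 0 ≤ b * la := by positivity
      have h5 : 0 ≤ a * lb := by positivity
      nlinarith
  · push Not at hcase
    have h1 : e * (la + lb - L) ≤ (2 * n) * (la + lb - L) :=
      mul_le_mul_of_nonpos_right he2 (by linarith)
    nlinarith

/-- rows / columns with at least three ones -/
def bigR {n : ℕ} (A : Fin n → Fin n → Bool) : Finset (Fin n) := univ.filter fun i => 3 ≤ (rowOnes A i).card
def bigC {n : ℕ} (A : Fin n → Fin n → Bool) : Finset (Fin n) := univ.filter fun j => 3 ≤ (colOnes A j).card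

lemma exponent_le (n : ℕ) (hL : 6 ≤ Real.log n) (A : Fin n → Fin n → Bool) (hA : NearlyDec A) :
    ∑ p ∈ univ.filter (fun p : Fin n × Fin n => A p.1 p.2 = true),
      (Real.log n - ff n (bigR A) p.1 - ff n (bigC A) p.2) ≤
      3 * (n * Real.log n) - 2 * (n * Real.log (Real.log n)) + 11 / 5 * n := by
  have hn0 : (0:ℝ) < n := by
    by_contra h
    push Not at h
    have : (n:ℝ) = 0 := le_antisymm h (Nat.cast_nonneg _)
    rw [this, Real.log_zero] at hL
    norm_num at hL
  have hn1 : n ≠ 1 := by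
    rintro rfl
    simp at hL
    norm_num at hL
  have hn2 : 2 ≤ n := by
    have : 0 < n := by exact_mod_cast hn0
    omega
  have hn2' : 2 ≤ Fintype.card (Fin n) := by rw [Fintype.card_fin]; exact hn2
  have hstr := structure_lemma hn2' hA
  rw [Fintype.card_fin] at hstr
  set e := (univ.filter fun p : Fin n × Fin n => A p.1 p.2 = true).card with he
  have hr : (e:ℝ) = ∑ i, ((rowOnes A i).card : ℝ) := by
    have := sum_rows A (fun _ => (1:ℝ))
    simpa using this
  have hc : (e:ℝ) = ∑ i, ((colOnes A i).card : ℝ) := by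
    have := sum_cols A (fun _ => (1:ℝ))
    simpa using this
  have h1 := long_sum (c := fun i => (rowOnes A i).card) (two_le_rowOnes hA hn2') hr
    (Real.log n - Real.log ((max (bigR A).card 1 : ℕ) : ℝ))
  have h2 := long_sum (c := fun i => (colOnes A i).card) (two_le_colOnes hA hn2') hc
    (Real.log n - Real.log ((max (bigC A).card 1 : ℕ) : ℝ))
  have h3 : ∑ p ∈ univ.filter (fun p : Fin n × Fin n => A p.1 p.2 = true),
      (Real.log n - ff n (bigR A) p.1 - ff n (bigC A) p.2) =
      e * Real.log n - ((e:ℝ) - 2 * (n - (bigR A).card)) *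
        (Real.log n - Real.log ((max (bigR A).card 1 : ℕ) : ℝ)) -
        ((e:ℝ) - 2 * (n - (bigC A).card)) *
        (Real.log n - Real.log ((max (bigC A).card 1 : ℕ) : ℝ)) := by
    rw [sum_sub_distrib, sum_sub_distrib, sum_const, nsmul_eq_mul, sum_rows, sum_cols]
    rw [Fintype.card_fin] at h1 h2
    rw [← he]
    congr 1
    · congr 1
  rw [h3]
  have hcardle : ∀ P : Finset (Fin n), ((max P.card 1 : ℕ) : ℝ) ≤ n := by
    intro P
    have h5 := card_le_univ P
    rw [Fintype.card_fin] at h5
    have : max P.card 1 ≤ n := by omega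
    exact_mod_cast this
  have hcardge : ∀ P : Finset (Fin n), (1:ℝ) ≤ ((max P.card 1 : ℕ) : ℝ) := by
    intro P
    have : 1 ≤ max P.card 1 := by omega
    exact_mod_cast this
  apply opt (n:ℝ) e (bigR A).card (bigC A).card _ _ _ hn0 hL (Nat.cast_nonneg _) (Nat.cast_nonneg _) rfl
  · exact Real.log_nonneg (hcardge _)
  · exact Real.log_nonneg (hcardge _)
  · exact Real.log_le_log (by linarith [hcardge (bigR A)]) (hcardle _)
  · exact Real.log_le_log (by linarith [hcardge (bigC A)]) (hcardle _)
  · push_cast; rfl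
  · push_cast; rfl
  · have : ∑ i : Fin n, (2:ℝ) ≤ ∑ i, ((rowOnes A i).card : ℝ) := by
      apply sum_le_sum
      intro i _
      exact_mod_cast two_le_rowOnes hA hn2' i
    rw [sum_const, card_univ, Fintype.card_fin, nsmul_eq_mul, ← hr] at this
    linarith
  · have h4 : 4 * e + (bigR A).card + (bigC A).card ≤ 12 * n := by
      unfold bigR bigC; omega
    exact_mod_cast h4

lemma upper_weighted (n : ℕ) (hL : 6 ≤ Real.log n) :
    (N n : ℝ) * Real.exp (-(3 * (n * Real.log n) - 2 * (n * Real.log (Real.log n)) + 11 / 5 * n)) ≤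
      4 ^ n * Real.exp (4 * n) := by
  classical
  set G := 3 * (n * Real.log n) - 2 * (n * Real.log (Real.log n)) + 11 / 5 * n with hG
  have hn1 : 1 ≤ n := by
    by_contra h
    have : n = 0 := by omega
    rw [this] at hL
    simp at hL
    norm_num at hL
  set φ : (Fin n → Fin n → Bool) → Finset (Fin n) × Finset (Fin n) × Finset (Fin n × Fin n) :=
    fun A => (bigR A, bigC A, univ.filter fun p : Fin n × Fin n => A p.1 p.2 = true) with hφ
  have hinj : Function.Injective φ := by
    intro A B h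
    have h' : (univ.filter fun p : Fin n × Fin n => A p.1 p.2 = true) =
        univ.filter fun p : Fin n × Fin n => B p.1 p.2 = true := by
      simp only [hφ, Prod.mk.injEq] at h
      exact h.2.2
    funext i j
    have h1 : (i, j) ∈ (univ.filter fun p : Fin n × Fin n => A p.1 p.2 = true) ↔
        (i, j) ∈ (univ.filter fun p : Fin n × Fin n => B p.1 p.2 = true) := by
      rw [h']
    simp only [mem_filter, mem_univ, true_and] at h1
    cases hA : A i j <;> cases hB : B i j <;> simp_all
  set F : Finset (Fin n) × Finset (Fin n) × Finset (Fin n × Fin n) → ℝ :=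
    fun t => ∏ p ∈ t.2.2, ww n t.1 t.2.1 p with hF
  have hFpos : ∀ t, 0 ≤ F t := fun t => prod_nonneg fun p _ => (Real.exp_pos _).le
  set ND := (univ.filter fun A : Fin n → Fin n → Bool => NearlyDec A) with hND
  have hcard : (N n : ℝ) = (ND.card : ℝ) := by
    rw [hND, N, Nat.card_eq_fintype_card, Fintype.card_subtype]
  calc (N n : ℝ) * Real.exp (-G) = ∑ _A ∈ ND, Real.exp (-G) := by
        rw [sum_const, nsmul_eq_mul, hcard]
    _ ≤ ∑ A ∈ ND, F (φ A) := by
        apply sum_le_sum
        intro A hA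
        simp only [hF, hφ, ww]
        rw [← Real.exp_sum, Real.exp_le_exp, sum_neg_distrib]
        exact neg_le_neg (exponent_le n hL A (mem_filter.1 hA).2)
    _ = ∑ t ∈ ND.image φ, F t := by
        rw [sum_image fun A _ B _ h => hinj h]
    _ ≤ ∑ t, F t := sum_le_sum_of_subset_of_nonneg (subset_univ _) fun t _ _ => hFpos t
    _ = ∑ P, ∑ Q, ∑ E : Finset (Fin n × Fin n), ∏ p ∈ E, ww n P Q p := by
        rw [Fintype.sum_prod_type]
        apply sum_congr rfl
        intro P _
        rw [Fintype.sum_prod_type]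
    _ ≤ ∑ P : Finset (Fin n), ∑ Q : Finset (Fin n), Real.exp (4 * n) := by
        apply sum_le_sum
        intro P _
        apply sum_le_sum
        intro Q _
        have h1 : ∑ E : Finset (Fin n × Fin n), ∏ p ∈ E, ww n P Q p = ∏ p, (1 + ww n P Q p) := by
          rw [prod_one_add, powerset_univ]
        rw [h1]
        have h2 : ∏ p, (1 + ww n P Q p) ≤ ∏ p, Real.exp (ww n P Q p) := by
          apply Finset.prod_le_prod
          · intro p _
            have : 0 ≤ ww n P Q p := (Real.exp_pos _).le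
            linarith
          · intro p _
            rw [add_comm]
            exact Real.add_one_le_exp _
        refine h2.trans ?_
        rw [← Real.exp_sum, Real.exp_le_exp]
        exact sum_ww n hn1 P Q
    _ = 4 ^ n * Real.exp (4 * n) := by
        rw [sum_const, sum_const, card_univ, Fintype.card_finset, Fintype.card_fin, nsmul_eq_mul,
          nsmul_eq_mul, ← mul_assoc]
        congr 1
        push_cast
        rw [← mul_pow]; norm_num

lemma upper_real (n : ℕ) (hL : 6 ≤ Real.log n) (hN : 0 < N n) :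
    Real.log (N n) ≤ 3 * (n * Real.log n) - 2 * (n * Real.log (Real.log n)) + 8 * n := by
  have h := upper_weighted n hL
  set G := 3 * (n * Real.log n) - 2 * (n * Real.log (Real.log n)) + 11 / 5 * n with hG
  have hNr : (0:ℝ) < N n := by exact_mod_cast hN
  have h1 := Real.log_le_log (mul_pos hNr (Real.exp_pos _)) h
  rw [Real.log_mul hNr.ne' (Real.exp_pos _).ne', Real.log_exp, Real.log_mul (by positivity)
    (Real.exp_pos _).ne', Real.log_exp, Real.log_pow] at h1
  have h2 : Real.log 4 = 2 * Real.log 2 := by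
    rw [show (4:ℝ) = 2 ^ 2 by norm_num, Real.log_pow]; push_cast; ring
  have h3 := Real.log_two_lt_d9
  have hn0 : (0:ℝ) ≤ n := Nat.cast_nonneg _
  have h4 : (n:ℝ) * Real.log 4 ≤ n * (9/5) := mul_le_mul_of_nonneg_left (by rw [h2]; linarith) hn0
  linarith

theorem result :
    (∀ᶠ n : ℕ in atTop, 0 < N n ∧
      3 * (n * Real.log n) - 2 * (n * Real.log (Real.log n)) - 11 * n ≤ Real.log (N n) ∧
        Real.log (N n) ≤ 3 * (n * Real.log n) - 2 * (n * Real.log (Real.log n)) + 8 * n) ∧
    (∀ᶠ n : ℕ in atTop,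
      Real.exp (-11) * ((n:ℝ) ^ 3 / Real.log n ^ 2) ≤ (N n : ℝ) ^ ((1:ℝ) / n) ∧
        (N n : ℝ) ^ ((1:ℝ) / n) ≤ Real.exp 8 * ((n:ℝ) ^ 3 / Real.log n ^ 2)) := by
  have hlog : Tendsto (fun n : ℕ => Real.log (n:ℝ)) atTop atTop :=
    Real.tendsto_log_atTop.comp tendsto_natCast_atTop_atTop
  have hev : ∀ᶠ n : ℕ in atTop, 0 < N n ∧
      3 * (n * Real.log n) - 2 * (n * Real.log (Real.log n)) - 11 * n ≤ Real.log (N n) ∧
        Real.log (N n) ≤ 3 * (n * Real.log n) - 2 * (n * Real.log (Real.log n)) + 8 * n := by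
    filter_upwards [hlog.eventually_ge_atTop 6] with n hn
    obtain ⟨h1, h2⟩ := lower_real n hn
    exact ⟨h1, h2, upper_real n hn h1⟩
  refine ⟨hev, ?_⟩
  filter_upwards [hev, hlog.eventually_ge_atTop 6, eventually_ge_atTop 1] with n h1 h2 h3
  obtain ⟨hN, h4, h5⟩ := h1
  have hn0 : (0:ℝ) < n := by exact_mod_cast h3
  have hNr : (0:ℝ) < N n := by exact_mod_cast hN
  have hL0 : (0:ℝ) < Real.log n := by linarith
  have hid : ∀ c : ℝ, Real.exp c * ((n:ℝ) ^ 3 / Real.log n ^ 2) =
      Real.exp (3 * Real.log n - 2 * Real.log (Real.log n) + c) := by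
    intro c
    rw [Real.exp_add, Real.exp_sub, mul_comm]
    congr 2
    · rw [show (3:ℝ) * Real.log n = ((3:ℕ):ℝ) * Real.log n by norm_num, Real.exp_nat_mul,
        Real.exp_log hn0]
    · rw [show (2:ℝ) * Real.log (Real.log n) = ((2:ℕ):ℝ) * Real.log (Real.log n) by norm_num,
        Real.exp_nat_mul, Real.exp_log hL0]
  rw [hid, hid, Real.rpow_def_of_pos hNr, Real.exp_le_exp, Real.exp_le_exp, mul_one_div,
    le_div_iff₀ hn0, div_le_iff₀ hn0]
  constructor
  · nlinarith
  · nlinarith

end weights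

end Pool.Agent.Results.MP_5391ad_co.SecondOrder
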